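import Mathlib

/-!
# The Bloch-Wigner dilogarithm

`D z = arg (1 - z) * log |z| - ∫ s in 0..1, arg (1 - s z) / s`, defined for all complex `z`
(it vanishes on the real line, with Lean's convention `arg (-1) = π` as well).
-/

set_option autoImplicit false

open Complex MeasureTheory Set Filter Topology

namespace Pool.Agent.Helper46.BW

/-- The Bloch-Wigner dilogarithm. -/
noncomputable def D (z : ℂ) : ℝ :=
  arg (1 - z) * Real.log ‖z‖ - ∫ s in (0 : ℝ)..1, arg (1 - (s : ℂ) * z) / s

theorem arg_bound (z : ℂ) (s : ℝ) (hs : 0 < s) :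
    ‖arg (1 - (s : ℂ) * z) / s‖ ≤ 2 * Real.pi * ‖z‖ := by
  have hpi := Real.pi_gt_three
  rw [norm_div, Real.norm_of_nonneg hs.le, div_le_iff₀ hs]
  have hz := norm_nonneg z
  have hn : ‖-((s : ℂ) * z)‖ = s * ‖z‖ := by
    rw [norm_neg, norm_mul, Complex.norm_real, Real.norm_of_nonneg hs.le]
  rcases le_or_gt (s * ‖z‖) (1 / 2) with h | h
  · have h1 := norm_log_one_add_half_le_self (z := -((s : ℂ) * z)) (by rw [hn]; exact h)
    have h2 : ‖arg (1 - (s : ℂ) * z)‖ ≤ ‖log (1 + -((s : ℂ) * z))‖ := by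
      rw [← sub_eq_add_neg, ← log_im, Real.norm_eq_abs]
      exact abs_im_le_norm _
    rw [hn] at h1
    nlinarith [mul_nonneg hs.le hz]
  · have h1 : ‖arg (1 - (s : ℂ) * z)‖ ≤ Real.pi := by
      rw [Real.norm_eq_abs]; exact abs_arg_le_pi _
    nlinarith

theorem meas_arg (z : ℂ) : Measurable fun s : ℝ => arg (1 - (s : ℂ) * z) / s := by
  refine (measurable_arg.comp ?_).div measurable_id
  exact measurable_const.sub (measurable_ofReal.mul_const _)

theorem ii (z : ℂ) (a b : ℝ) (ha : 0 ≤ a) (hab : a ≤ b) :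
    IntervalIntegrable (fun s : ℝ => arg (1 - (s : ℂ) * z) / s) volume a b := by
  rw [intervalIntegrable_iff_integrableOn_Ioc_of_le hab]
  refine Measure.integrableOn_of_bounded (M := 2 * Real.pi * ‖z‖) measure_Ioc_lt_top.ne
    (meas_arg z).aestronglyMeasurable ?_
  exact ae_restrict_of_forall_mem measurableSet_Ioc fun s hs =>
    arg_bound z s (lt_of_le_of_lt ha hs.1)

theorem int_bound (z : ℂ) :
    |∫ s in (0 : ℝ)..1, arg (1 - (s : ℂ) * z) / s| ≤ 2 * Real.pi * ‖z‖ := by
  have := intervalIntegral.norm_integral_le_of_norm_le_const (a := 0) (b := 1)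
    (C := 2 * Real.pi * ‖z‖) (f := fun s : ℝ => arg (1 - (s : ℂ) * z) / s)
    (fun s hs => by
      rw [uIoc_of_le zero_le_one] at hs
      exact arg_bound z s hs.1)
  simpa using this

theorem D_le (z : ℂ) : |D z| ≤ 2 * Real.pi * (‖z‖ * (1 + |Real.log ‖z‖|)) := by
  have h1 := int_bound z
  have h2 := arg_bound z 1 one_pos
  have h3 : |arg (1 - z)| ≤ 2 * Real.pi * ‖z‖ := by simpa using h2
  unfold D
  calc _ ≤ |arg (1 - z) * Real.log ‖z‖| + |∫ s in (0 : ℝ)..1, arg (1 - (s : ℂ) * z) / s| :=
        abs_sub _ _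
    _ ≤ 2 * Real.pi * ‖z‖ * |Real.log ‖z‖| + 2 * Real.pi * ‖z‖ := by
        rw [abs_mul]
        exact add_le_add (mul_le_mul_of_nonneg_right h3 (abs_nonneg _)) h1
    _ = _ := by ring

@[simp] theorem D_zero : D 0 = 0 := by simp [D]

theorem D_ofReal (x : ℝ) : D (x : ℂ) = 0 := by
  rcases le_or_gt x 1 with hx | hx
  · have h1 : ∫ s in (0 : ℝ)..1, arg (1 - (s : ℂ) * x) / s = 0 := by
      rw [intervalIntegral.integral_congr (g := fun _ => (0 : ℝ))]
      · simp
      · intro s hs
        rw [uIcc_of_le zero_le_one] at hs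
        have : (1 - (s : ℂ) * x) = ((1 - s * x : ℝ) : ℂ) := by push_cast; ring
        simp only [this]
        rw [arg_ofReal_of_nonneg, zero_div]
        nlinarith [hs.1, hs.2]
    have h2 : arg (1 - (x : ℂ)) = 0 := by
      have : (1 - (x : ℂ)) = ((1 - x : ℝ) : ℂ) := by push_cast; ring
      rw [this, arg_ofReal_of_nonneg (by linarith)]
    simp [D, h1, h2]
  · have hx0 : 0 < x := by linarith
    have hxi : 0 < 1 / x := by positivity
    have hxi1 : 1 / x ≤ 1 := by rw [div_le_one hx0]; exact hx.le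
    have hsplit := intervalIntegral.integral_add_adjacent_intervals
      (ii (x : ℂ) 0 (1 / x) le_rfl hxi.le) (ii (x : ℂ) (1 / x) 1 hxi.le hxi1)
    have h1 : ∫ s in (0 : ℝ)..(1 / x), arg (1 - (s : ℂ) * x) / s = 0 := by
      rw [intervalIntegral.integral_congr (g := fun _ => (0 : ℝ))]
      · simp
      · intro s hs
        rw [uIcc_of_le hxi.le] at hs
        have : (1 - (s : ℂ) * x) = ((1 - s * x : ℝ) : ℂ) := by push_cast; ring
        simp only [this]
        rw [arg_ofReal_of_nonneg, zero_div]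
        have := mul_le_mul_of_nonneg_right hs.2 hx0.le
        rw [one_div, inv_mul_cancel₀ hx0.ne'] at this
        linarith
    have h2 : ∫ s in (1 / x)..(1 : ℝ), arg (1 - (s : ℂ) * x) / s
        = ∫ s in (1 / x)..(1 : ℝ), Real.pi * (1 / s) := by
      refine intervalIntegral.integral_congr_ae ?_
      refine Eventually.of_forall fun s hs => ?_
      rw [uIoc_of_le hxi1] at hs
      have : (1 - (s : ℂ) * x) = ((1 - s * x : ℝ) : ℂ) := by push_cast; ring
      simp only [this]
      rw [arg_ofReal_of_neg]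
      · ring
      · have := mul_lt_mul_of_pos_right hs.1 hx0
        rw [one_div, inv_mul_cancel₀ hx0.ne'] at this
        linarith
    have h3 : ∫ s in (1 / x)..(1 : ℝ), Real.pi * (1 / s) = Real.pi * Real.log x := by
      rw [intervalIntegral.integral_const_mul, integral_one_div_of_pos hxi one_pos]
      simp
    have h4 : arg (1 - (x : ℂ)) = Real.pi := by
      have : (1 - (x : ℂ)) = ((1 - x : ℝ) : ℂ) := by push_cast; ring
      rw [this, arg_ofReal_of_neg (by linarith)]
    have h5 : ‖(x : ℂ)‖ = x := by rw [Complex.norm_real, Real.norm_of_nonneg hx0.le]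
    unfold D
    rw [← hsplit, h1, h2, h3, h4, h5]
    ring

theorem D_one : D 1 = 0 := by simpa using D_ofReal 1

theorem D_conj (z : ℂ) : D (starRingEnd ℂ z) = -D z := by
  by_cases hz : z.im = 0
  · have h1 : z = ((z.re : ℝ) : ℂ) := by
      apply Complex.ext <;> simp [hz]
    rw [h1, conj_ofReal, D_ofReal, neg_zero]
  · have key : ∀ s : ℝ, 0 < s →
        arg (1 - (s : ℂ) * (starRingEnd ℂ z)) = -arg (1 - (s : ℂ) * z) := by
      intro s hs
      have h2 : (1 - (s : ℂ) * (starRingEnd ℂ z)) = starRingEnd ℂ (1 - (s : ℂ) * z) := by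
        simp
      rw [h2, arg_conj, if_neg]
      intro h
      rw [arg_eq_pi_iff] at h
      have h3 := h.2
      simp at h3
      rcases h3 with h3 | h3
      · exact hs.ne' h3
      · exact hz h3
    have h1 : arg (1 - starRingEnd ℂ z) = -arg (1 - z) := by simpa using key 1 one_pos
    have h2 : ∫ s in (0 : ℝ)..1, arg (1 - (s : ℂ) * starRingEnd ℂ z) / s
        = -∫ s in (0 : ℝ)..1, arg (1 - (s : ℂ) * z) / s := by
      rw [← intervalIntegral.integral_neg]
      refine intervalIntegral.integral_congr_ae ?_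
      refine Eventually.of_forall fun s hs => ?_
      rw [uIoc_of_le zero_le_one] at hs
      rw [key s hs.1, neg_div]
    unfold D
    rw [h1, h2, Complex.norm_conj]
    ring

end Pool.Agent.Helper46.BW
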