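import Pool.Agent.Helper46.BW.D

/-!
# The differential of the Bloch-Wigner dilogarithm off `[1, ∞)`
-/

set_option autoImplicit false

open Complex MeasureTheory Set Filter Topology

namespace Pool.Agent.Helper46.BW

/-- the real functional `v ↦ Im (p v)` -/
noncomputable def ev (p : ℂ) : ℂ →L[ℝ] ℝ := imCLM.comp (p • ContinuousLinearMap.id ℝ ℂ)

@[simp] theorem ev_apply (p v : ℂ) : ev p v = (p * v).im := by simp [ev]

theorem ev_zero : ev 0 = 0 := by
  apply ContinuousLinearMap.ext; intro v; simp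

theorem ev_add (p q : ℂ) : ev (p + q) = ev p + ev q := by
  apply ContinuousLinearMap.ext; intro v; simp [add_mul]

theorem ev_neg (p : ℂ) : ev (-p) = -ev p := by
  apply ContinuousLinearMap.ext; intro v; simp

theorem ev_smul (r : ℝ) (p : ℂ) : r • ev p = ev ((r : ℂ) * p) := by
  apply ContinuousLinearMap.ext; intro v
  simp only [smul_apply, ev_apply, smul_eq_mul, mul_assoc, im_ofReal_mul]

theorem hasFDerivAt_im {f : ℂ → ℂ} {f' z : ℂ} (h : HasDerivAt f f' z) :
    HasFDerivAt (fun w => (f w).im) (ev f') z := by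
  have h1 := imCLM.hasFDerivAt.comp z (h.hasFDerivAt.restrictScalars ℝ)
  have h2 : imCLM.comp ((ContinuousLinearMap.toSpanSingleton ℂ f').restrictScalars ℝ) = ev f' := by
    apply ContinuousLinearMap.ext; intro v; simp [mul_comm]
  rw [← h2]
  exact h1

theorem hasFDerivAt_logNorm {z : ℂ} (hz : z ≠ 0) :
    HasFDerivAt (fun w : ℂ => Real.log ‖w‖) (ev (I / z)) z := by
  have h1 : HasDerivAt (fun w : ℂ => I * log (w / z)) (I / z) z := by
    have h2 : HasDerivAt (fun w : ℂ => w / z) (1 / z) z := (hasDerivAt_id z).div_const z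
    have h3 := (h2.clog (by rw [div_self hz]; exact one_mem_slitPlane)).const_mul I
    exact h3.congr_deriv (by rw [div_self hz]; ring)
  have h4 := (hasFDerivAt_im h1).add_const (Real.log ‖z‖)
  refine h4.congr_of_eventuallyEq ?_
  filter_upwards [isOpen_ne.mem_nhds hz] with w hw
  have hw' : w ≠ 0 := hw
  simp only [I_mul_im, log_re]
  rw [norm_div, Real.log_div (norm_ne_zero_iff.2 hw') (norm_ne_zero_iff.2 hz)]
  ring

theorem slit_seg {z : ℂ} (hz : 1 - z ∈ slitPlane) {s : ℝ} (h0 : 0 ≤ s) (h1 : s ≤ 1) :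
    1 - (s : ℂ) * z ∈ slitPlane := by
  rw [mem_slitPlane_iff] at hz ⊢
  simp only [sub_re, one_re, sub_im, one_im, re_ofReal_mul, im_ofReal_mul, zero_sub, neg_ne_zero,
    ne_eq] at hz ⊢
  by_cases hi : z.im = 0
  · left
    rcases hz with hz | hz
    · have h3 : 0 ≤ s * (1 - z.re) := mul_nonneg h0 hz.le
      rcases eq_or_lt_of_le h0 with hs | hs
      · rw [← hs]; norm_num
      · have h4 : 0 < s * (1 - z.re) := mul_pos hs hz
        nlinarith
    · exact absurd hi hz
  · rcases eq_or_lt_of_le h0 with hs | hs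
    · left; rw [← hs]; simp
    · right; exact mul_ne_zero hs.ne' hi

theorem exists_lower {z : ℂ} (hz : 1 - z ∈ slitPlane) :
    ∃ r > 0, ∃ m > 0, ∀ w ∈ Metric.ball z r, 1 - w ∈ slitPlane ∧
      ∀ s ∈ Icc (0 : ℝ) 1, m ≤ ‖1 - (s : ℂ) * w‖ := by
  have hU : IsOpen {w : ℂ | 1 - w ∈ slitPlane} :=
    isOpen_slitPlane.preimage (continuous_const.sub continuous_id)
  obtain ⟨r, hr, hrU⟩ := Metric.nhds_basis_closedBall.mem_iff.1 (hU.mem_nhds hz)
  have hK : IsCompact (Icc (0 : ℝ) 1 ×ˢ Metric.closedBall z r) :=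
    isCompact_Icc.prod (isCompact_closedBall z r)
  have hne : (Icc (0 : ℝ) 1 ×ˢ Metric.closedBall z r).Nonempty :=
    ⟨(0, z), ⟨by simp, Metric.mem_closedBall_self hr.le⟩⟩
  have hc : ContinuousOn (fun p : ℝ × ℂ => ‖1 - (p.1 : ℂ) * p.2‖)
      (Icc (0 : ℝ) 1 ×ˢ Metric.closedBall z r) := by
    fun_prop
  obtain ⟨p, hp, hmin⟩ := hK.exists_isMinOn hne hc
  refine ⟨r, hr, ‖1 - (p.1 : ℂ) * p.2‖, ?_, fun w hw => ⟨hrU (Metric.ball_subset_closedBall hw),
    fun s hs => ?_⟩⟩
  · have := slit_seg (hrU hp.2) hp.1.1 hp.1.2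
    exact norm_pos_iff.2 (slitPlane_ne_zero this)
  · exact hmin (a := (s, w)) ⟨hs, Metric.ball_subset_closedBall hw⟩

theorem meas_log (z : ℂ) : Measurable fun s : ℝ => -log (1 - (s : ℂ) * z) / (s : ℂ) := by
  refine Measurable.div (measurable_log.comp ?_).neg measurable_ofReal
  exact measurable_const.sub (measurable_ofReal.mul_const _)

theorem hasDerivAt_seg {z : ℂ} (hz : 1 - z ∈ slitPlane) {s : ℝ} (h0 : 0 ≤ s) (h1 : s ≤ 1) :
    HasDerivAt (fun u : ℝ => log (1 - (u : ℂ) * z)) (-z / (1 - (s : ℂ) * z)) s := by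
  have h2 : HasDerivAt (fun u : ℝ => 1 - (u : ℂ) * z) (-z) s := by
    have h3 : HasDerivAt (fun u : ℝ => (u : ℂ)) 1 s := by
      simpa using (hasDerivAt_id s).ofReal_comp
    simpa using (h3.mul_const z).const_sub 1
  exact h2.clog_real (slit_seg hz h0 h1)

theorem ii_log {z : ℂ} (hz : 1 - z ∈ slitPlane) :
    IntervalIntegrable (fun s : ℝ => -log (1 - (s : ℂ) * z) / (s : ℂ)) volume 0 1 := by
  obtain ⟨r, hr, m, hm, H⟩ := exists_lower hz
  have H2 := (H z (Metric.mem_ball_self hr)).2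
  rw [intervalIntegrable_iff_integrableOn_Ioc_of_le zero_le_one]
  refine Measure.integrableOn_of_bounded (M := ‖z‖ / m) measure_Ioc_lt_top.ne
    (meas_log z).aestronglyMeasurable ?_
  refine ae_restrict_of_forall_mem measurableSet_Ioc fun s hs => ?_
  have h3 := norm_image_sub_le_of_norm_deriv_le_segment' (a := (0 : ℝ)) (b := 1)
    (f := fun u : ℝ => log (1 - (u : ℂ) * z)) (C := ‖z‖ / m)
    (fun x hx => (hasDerivAt_seg hz hx.1 hx.2).hasDerivWithinAt)
    (fun x hx => by
      rw [norm_div, norm_neg]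
      exact div_le_div_of_nonneg_left (norm_nonneg z) hm (H2 x ⟨hx.1, hx.2.le⟩)) s ⟨hs.1.le, hs.2⟩
  simp only [ofReal_zero, zero_mul, sub_zero, log_one] at h3
  rw [norm_div, norm_neg, Complex.norm_real, Real.norm_of_nonneg hs.1.le, div_le_iff₀ hs.1]
  exact h3

theorem int_inv {z : ℂ} (hz : 1 - z ∈ slitPlane) (hz0 : z ≠ 0) :
    ∫ s in (0 : ℝ)..1, 1 / (1 - (s : ℂ) * z) = -log (1 - z) / z := by
  have h1 : ∀ s ∈ uIcc (0 : ℝ) 1, HasDerivAt (fun u : ℝ => -log (1 - (u : ℂ) * z) / z)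
      (1 / (1 - (s : ℂ) * z)) s := by
    intro s hs
    rw [uIcc_of_le zero_le_one] at hs
    have h2 := ((hasDerivAt_seg hz hs.1 hs.2).neg).div_const z
    refine h2.congr_deriv ?_
    have hne := slitPlane_ne_zero (slit_seg hz hs.1 hs.2)
    field_simp
  have h3 : ContinuousOn (fun s : ℝ => 1 / (1 - (s : ℂ) * z)) (uIcc (0 : ℝ) 1) := by
    rw [uIcc_of_le zero_le_one]
    refine continuousOn_const.div (by fun_prop) fun s hs => ?_
    exact slitPlane_ne_zero (slit_seg hz hs.1 hs.2)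
  have h4 := intervalIntegral.integral_eq_sub_of_hasDerivAt h1 h3.intervalIntegrable
  rw [h4]
  simp

theorem hasDerivAt_L {z : ℂ} (hz : 1 - z ∈ slitPlane) (hz0 : z ≠ 0) :
    HasDerivAt (fun w : ℂ => ∫ s in (0 : ℝ)..1, -log (1 - (s : ℂ) * w) / (s : ℂ))
      (-log (1 - z) / z) z := by
  obtain ⟨r, hr, m, hm, H⟩ := exists_lower hz
  have key := intervalIntegral.hasDerivAt_integral_of_dominated_loc_of_deriv_le
    (μ := volume) (a := 0) (b := 1) (𝕜 := ℂ) (E := ℂ)
    (F := fun (w : ℂ) (s : ℝ) => -log (1 - (s : ℂ) * w) / (s : ℂ))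
    (F' := fun (w : ℂ) (s : ℝ) => 1 / (1 - (s : ℂ) * w)) (x₀ := z)
    (s := Metric.ball z r) (bound := fun _ => 1 / m)
    (Metric.ball_mem_nhds z hr)
    (Eventually.of_forall fun w => (meas_log w).aestronglyMeasurable)
    (ii_log hz)
    (by
      refine Measurable.aestronglyMeasurable ?_
      exact measurable_const.div (measurable_const.sub (measurable_ofReal.mul_const _)))
    (Eventually.of_forall fun s hs w hw => by
      rw [uIoc_of_le zero_le_one] at hs
      rw [norm_div, norm_one]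
      exact div_le_div_of_nonneg_left zero_le_one hm ((H w hw).2 s ⟨hs.1.le, hs.2⟩))
    intervalIntegrable_const
    (Eventually.of_forall fun s hs w hw => by
      rw [uIoc_of_le zero_le_one] at hs
      have hs0 : (s : ℂ) ≠ 0 := by exact_mod_cast hs.1.ne'
      have h1 : HasDerivAt (fun w : ℂ => 1 - (s : ℂ) * w) (-(s : ℂ)) w := by
        simpa using ((hasDerivAt_id w).const_mul (s : ℂ)).const_sub 1
      have h2 := ((h1.clog (slit_seg (H w hw).1 hs.1.le hs.2)).neg).div_const (s : ℂ)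
      refine h2.congr_deriv ?_
      have hne := slitPlane_ne_zero (slit_seg (H w hw).1 hs.1.le hs.2)
      field_simp)
  have h5 := key.2
  rw [int_inv hz hz0] at h5
  exact h5

theorem D_eq {z : ℂ} (hz : 1 - z ∈ slitPlane) :
    D z = arg (1 - z) * Real.log ‖z‖
      + (∫ s in (0 : ℝ)..1, -log (1 - (s : ℂ) * z) / (s : ℂ)).im := by
  have h1 := imCLM.intervalIntegral_comp_comm (ii_log hz)
  rw [imCLM_apply] at h1
  rw [← h1, D, sub_eq_add_neg, ← intervalIntegral.integral_neg]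
  congr 1
  refine intervalIntegral.integral_congr fun s _ => ?_
  simp only [imCLM_apply]
  rw [div_ofReal_im, neg_im, log_im, neg_div]

/-- the differential of `D`, as a complex covector -/
noncomputable def dD (z : ℂ) : ℂ :=
  -((Real.log ‖1 - z‖ : ℂ) / z + (Real.log ‖z‖ : ℂ) / (1 - z))

theorem D_hasFDerivAt_off {z : ℂ} (hz : 1 - z ∈ slitPlane) (hz0 : z ≠ 0) :
    HasFDerivAt D (ev (dD z)) z := by
  have h1 := hasFDerivAt_im (hasDerivAt_L hz hz0)
  have h2 : HasDerivAt (fun w : ℂ => log (1 - w)) (-1 / (1 - z)) z := by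
    have h3 : HasDerivAt (fun w : ℂ => 1 - w) (-1) z := by
      simpa using (hasDerivAt_id z).const_sub 1
    exact h3.clog hz
  have h4 := (hasFDerivAt_im h2).mul (hasFDerivAt_logNorm hz0)
  have h5 := h4.add h1
  have hU : IsOpen {w : ℂ | 1 - w ∈ slitPlane} :=
    isOpen_slitPlane.preimage (continuous_const.sub continuous_id)
  have h6 := h5.congr_of_eventuallyEq (f₁ := D) (by
    filter_upwards [hU.mem_nhds hz] with w hw
    simp only [Pi.add_apply, Pi.mul_apply]
    rw [D_eq hw, log_im])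
  refine h6.congr_fderiv ?_
  rw [ev_smul, ev_smul, ← ev_add, ← ev_add]
  congr 1
  have h7 : 1 - z ≠ 0 := slitPlane_ne_zero hz
  have h8 : log (1 - z) = (Real.log ‖1 - z‖ : ℂ) + (arg (1 - z) : ℂ) * I := rfl
  rw [log_im, h8, dD]
  field_simp
  ring

end Pool.Agent.Helper46.BW
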