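import Pool.Agent.Helper46.BW.Inv

/-!
# The five term relation of the Bloch-Wigner dilogarithm
-/

set_option autoImplicit false

open Complex MeasureTheory Set Filter Topology

namespace Pool.Agent.Helper46.BW

/-- the five term expression, with `D (b / a) = -D (a / b)` -/
noncomputable def fv (b a : ℂ) : ℝ :=
  D (a * (1 - b) / (b * (1 - a))) - D ((1 - b) / (1 - a)) - D (a / b) - D b + D a

theorem fv_hasFDerivAt {a b : ℂ} (ha0 : a ≠ 0) (ha1 : a ≠ 1) (hb0 : b ≠ 0) (hb1 : b ≠ 1)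
    (hab : a ≠ b) : HasFDerivAt (fv b) (ev 0) a := by
  have ha1' : 1 - a ≠ 0 := sub_ne_zero.2 (Ne.symm ha1)
  have hb1' : 1 - b ≠ 0 := sub_ne_zero.2 (Ne.symm hb1)
  have hab' : b - a ≠ 0 := sub_ne_zero.2 (Ne.symm hab)
  -- first argument
  have e1 : 1 - a * (1 - b) / (b * (1 - a)) = (b - a) / (b * (1 - a)) := by field_simp; ring
  have n1 : a * (1 - b) / (b * (1 - a)) ≠ 0 :=
    div_ne_zero (mul_ne_zero ha0 hb1') (mul_ne_zero hb0 ha1')
  have m1 : a * (1 - b) / (b * (1 - a)) ≠ 1 := by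
    intro h
    rw [h, sub_self] at e1
    exact (div_ne_zero hab' (mul_ne_zero hb0 ha1')) e1.symm
  have d1 : HasDerivAt (fun w : ℂ => w * (1 - b) / (b * (1 - w)))
      ((1 - b) / (b * (1 - a) ^ 2)) a := by
    have h1 : HasDerivAt (fun w : ℂ => w * (1 - b)) (1 - b) a := by
      simpa using (hasDerivAt_id a).mul_const (1 - b)
    have h2 : HasDerivAt (fun w : ℂ => b * (1 - w)) (-b) a := by
      simpa using ((hasDerivAt_id a).const_sub 1).const_mul b
    refine (h1.div h2 (mul_ne_zero hb0 ha1')).congr_deriv ?_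
    field_simp
    ring
  -- second argument
  have e2 : 1 - (1 - b) / (1 - a) = (b - a) / (1 - a) := by field_simp; ring
  have n2 : (1 - b) / (1 - a) ≠ 0 := div_ne_zero hb1' ha1'
  have m2 : (1 - b) / (1 - a) ≠ 1 := by
    intro h
    rw [h, sub_self] at e2
    exact (div_ne_zero hab' ha1') e2.symm
  have d2 : HasDerivAt (fun w : ℂ => (1 - b) / (1 - w)) ((1 - b) / (1 - a) ^ 2) a := by
    have h2 : HasDerivAt (fun w : ℂ => 1 - w) (-1) a := by
      simpa using (hasDerivAt_id a).const_sub 1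
    refine ((hasDerivAt_const a (1 - b)).div h2 ha1').congr_deriv ?_
    field_simp
    ring
  -- third argument
  have e3 : 1 - a / b = (b - a) / b := by field_simp
  have n3 : a / b ≠ 0 := div_ne_zero ha0 hb0
  have m3 : a / b ≠ 1 := by
    intro h
    rw [h, sub_self] at e3
    exact (div_ne_zero hab' hb0) e3.symm
  have d3 : HasDerivAt (fun w : ℂ => w / b) (1 / b) a := (hasDerivAt_id a).div_const b
  have H1 := comp_hasFDerivAt (g := D) (f := fun w : ℂ => w * (1 - b) / (b * (1 - w)))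
    (D_hasFDerivAt n1 m1) d1
  have H2 := comp_hasFDerivAt (g := D) (f := fun w : ℂ => (1 - b) / (1 - w))
    (D_hasFDerivAt n2 m2) d2
  have H3 := comp_hasFDerivAt (g := D) (f := fun w : ℂ => w / b) (D_hasFDerivAt n3 m3) d3
  have H4 := D_hasFDerivAt ha0 ha1
  have H := (((H1.sub H2).sub H3).sub_const (D b)).add H4
  refine (H.congr_of_eventuallyEq (f₁ := fv b) (Eventually.of_forall fun w => rfl)).congr_fderiv ?_
  have L : ∀ x y : ℂ, x ≠ 0 → y ≠ 0 → Real.log ‖x / y‖ = Real.log ‖x‖ - Real.log ‖y‖ := by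
    intro x y hx hy
    rw [norm_div, Real.log_div (norm_ne_zero_iff.2 hx) (norm_ne_zero_iff.2 hy)]
  have M : ∀ x y : ℂ, x ≠ 0 → y ≠ 0 → Real.log ‖x * y‖ = Real.log ‖x‖ + Real.log ‖y‖ := by
    intro x y hx hy
    rw [norm_mul, Real.log_mul (norm_ne_zero_iff.2 hx) (norm_ne_zero_iff.2 hy)]
  rw [sub_eq_add_neg, sub_eq_add_neg, ← ev_neg, ← ev_neg, ← ev_add, ← ev_add, ← ev_add]
  congr 1
  simp only [dD]
  rw [e1, e2, e3, L _ _ (mul_ne_zero ha0 hb1') (mul_ne_zero hb0 ha1'),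
    L _ _ hab' (mul_ne_zero hb0 ha1'), M _ _ ha0 hb1', M _ _ hb0 ha1', L _ _ hb1' ha1',
    L _ _ hab' ha1', L _ _ ha0 hb0, L _ _ hab' hb0]
  push_cast
  field_simp
  ring

theorem fv_continuousAt_zero {b : ℂ} (hb0 : b ≠ 0) : ContinuousAt (fv b) 0 := by
  have h1 : ContinuousAt (fun a : ℂ => a * (1 - b) / (b * (1 - a))) 0 := by
    refine ContinuousAt.div (by fun_prop) (by fun_prop) ?_
    simpa using hb0
  have h2 : ContinuousAt (fun a : ℂ => (1 - b) / (1 - a)) 0 := by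
    refine ContinuousAt.div (by fun_prop) (by fun_prop) ?_
    simp
  have h3 : ContinuousAt (fun a : ℂ => a / b) 0 := by fun_prop
  have c := D_continuous
  unfold fv
  exact ((((c.continuousAt.comp h1).sub (c.continuousAt.comp h2)).sub
    (c.continuousAt.comp h3)).sub continuousAt_const).add c.continuousAt

theorem fv_zero {b : ℂ} : fv b 0 = 0 := by
  simp [fv, D_one_sub]

theorem fv_eq_zero {a b : ℂ} (ha0 : a ≠ 0) (ha1 : a ≠ 1) (hb0 : b ≠ 0) (hb1 : b ≠ 1)
    (hab : a ≠ b) : fv b a = 0 := by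
  have hcount : ({0, 1, b} : Set ℂ).Countable := (Set.toFinite _).countable
  have hS : IsOpen (({0, 1, b} : Set ℂ)ᶜ) := (Set.toFinite _).isClosed.isOpen_compl
  have hconn : IsPreconnected (({0, 1, b} : Set ℂ)ᶜ) :=
    (hcount.isConnected_compl_of_one_lt_rank (by rw [rank_real_complex]; norm_num)).isPreconnected
  have hd : ∀ x ∈ (({0, 1, b} : Set ℂ)ᶜ), HasFDerivAt (fv b) (ev 0) x := by
    intro x hx
    simp only [mem_compl_iff, mem_insert_iff, mem_singleton_iff, not_or] at hx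
    exact fv_hasFDerivAt hx.1 hx.2.1 hb0 hb1 hx.2.2
  have hconst : ∀ x ∈ (({0, 1, b} : Set ℂ)ᶜ), fv b x = fv b a := by
    intro x hx
    refine hS.is_const_of_fderiv_eq_zero (𝕜 := ℝ) hconn
      (fun y hy => (hd y hy).differentiableAt.differentiableWithinAt) ?_ hx ?_
    · intro y hy
      rw [(hd y hy).fderiv, ev_zero]
      rfl
    · simp only [mem_compl_iff, mem_insert_iff, mem_singleton_iff, not_or]
      exact ⟨ha0, ha1, hab⟩
  have h1 : Tendsto (fv b) (𝓝[≠] (0 : ℂ)) (𝓝 (fv b 0)) :=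
    (fv_continuousAt_zero hb0).tendsto.mono_left nhdsWithin_le_nhds
  have h2 : Tendsto (fv b) (𝓝[≠] (0 : ℂ)) (𝓝 (fv b a)) := by
    refine tendsto_const_nhds.congr' ?_
    have h3 : ∀ᶠ x in 𝓝[≠] (0 : ℂ), x ≠ 1 :=
      mem_nhdsWithin_of_mem_nhds (isOpen_ne.mem_nhds zero_ne_one)
    have h4 : ∀ᶠ x in 𝓝[≠] (0 : ℂ), x ≠ b :=
      mem_nhdsWithin_of_mem_nhds (isOpen_ne.mem_nhds (Ne.symm hb0))
    filter_upwards [self_mem_nhdsWithin, h3, h4] with x hx hx1 hxb
    refine (hconst x ?_).symm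
    simp only [mem_compl_iff, mem_insert_iff, mem_singleton_iff, not_or]
    exact ⟨hx, hx1, hxb⟩
  rw [← tendsto_nhds_unique h1 h2, fv_zero]

theorem D_five {a b : ℂ} (ha0 : a ≠ 0) (ha1 : a ≠ 1) (hb0 : b ≠ 0) (hb1 : b ≠ 1) :
    D (a * (1 - b) / (b * (1 - a))) - D ((1 - b) / (1 - a)) + D (b / a) - D b + D a = 0 := by
  by_cases hab : a = b
  · subst hab
    have h1 : 1 - a ≠ 0 := sub_ne_zero.2 (Ne.symm ha1)
    rw [div_self (mul_ne_zero ha0 h1), div_self h1, div_self ha0, D_one]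
    ring
  · have h := fv_eq_zero ha0 ha1 hb0 hb1 hab
    have h2 : D (b / a) = -D (a / b) := by rw [← D_inv, inv_div]
    rw [fv] at h
    rw [h2]
    linarith

end Pool.Agent.Helper46.BW
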