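import Pool.Agent.Helper46.BW.Der

/-!
# `D (1 - z) = -D z`, `D z⁻¹ = -D z`, the differential of `D` at all `z ≠ 0, 1`, continuity
-/

set_option autoImplicit false

open Complex MeasureTheory Set Filter Topology

namespace Pool.Agent.Helper46.BW

theorem comp_hasFDerivAt {g : ℂ → ℝ} {p : ℂ} {f : ℂ → ℂ} {f' z : ℂ}
    (hg : HasFDerivAt g (ev p) (f z)) (hf : HasDerivAt f f' z) :
    HasFDerivAt (fun w => g (f w)) (ev (p * f')) z := by
  have h1 := hg.comp z (hf.hasFDerivAt.restrictScalars ℝ)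
  have h2 : (ev p).comp ((ContinuousLinearMap.toSpanSingleton ℂ f').restrictScalars ℝ)
      = ev (p * f') := by
    apply ContinuousLinearMap.ext; intro v
    simp [mul_comm, mul_left_comm]
  rw [← h2]
  exact h1

theorem const_upper {f : ℂ → ℝ} (h : ∀ z : ℂ, 0 < z.im → HasFDerivAt f (ev 0) z)
    {z w : ℂ} (hz : 0 < z.im) (hw : 0 < w.im) : f z = f w := by
  have ho : IsOpen {z : ℂ | 0 < z.im} := isOpen_lt continuous_const continuous_im
  refine ho.is_const_of_fderiv_eq_zero (𝕜 := ℝ) (convex_halfSpace_im_gt 0).isPreconnected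
    (fun x hx => (h x hx).differentiableAt.differentiableWithinAt) ?_ hz hw
  intro x hx
  rw [(h x hx).fderiv, ev_zero]
  rfl

theorem slit_of_im {z : ℂ} (h : z.im ≠ 0) : z ∈ slitPlane := by
  rw [mem_slitPlane_iff]; exact Or.inr h

theorem ne_zero_of_im {z : ℂ} (h : z.im ≠ 0) : z ≠ 0 := by
  rintro rfl; simp at h

theorem D_hasFDerivAt_im {z : ℂ} (h : z.im ≠ 0) : HasFDerivAt D (ev (dD z)) z :=
  D_hasFDerivAt_off (slit_of_im (by simpa using h)) (ne_zero_of_im h)

theorem D_one_sub (z : ℂ) : D (1 - z) = -D z := by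
  have key : ∀ z : ℂ, 0 < z.im → D (1 - z) = -D z := by
    intro z hz
    have hd : ∀ z : ℂ, 0 < z.im → HasFDerivAt (fun w => D (1 - w) + D w) (ev 0) z := by
      intro z hz
      have h1 : HasDerivAt (fun w : ℂ => 1 - w) (-1) z := by
        simpa using (hasDerivAt_id z).const_sub 1
      have h2 := (comp_hasFDerivAt (g := D) (D_hasFDerivAt_im (z := 1 - z)
        (by simpa using hz.ne')) h1).add (D_hasFDerivAt_im hz.ne')
      refine h2.congr_fderiv ?_
      rw [← ev_add]
      congr 1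
      have e1 : 1 - (1 - z) = z := by ring
      rw [dD, dD, e1]
      ring
    have h3 := const_upper hd hz (w := ((1 / 2 : ℝ) : ℂ) + I) (by simp)
    have h4 : (1 : ℂ) - (((1 / 2 : ℝ) : ℂ) + I) = starRingEnd ℂ (((1 / 2 : ℝ) : ℂ) + I) := by
      rw [map_add, conj_ofReal, conj_I]; push_cast; ring
    rw [h4, D_conj] at h3
    linarith
  rcases lt_trichotomy z.im 0 with h | h | h
  · have h1 := key (starRingEnd ℂ z) (by simpa using h)
    have h2 : (1 : ℂ) - starRingEnd ℂ z = starRingEnd ℂ (1 - z) := by simp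
    rw [h2, D_conj, D_conj] at h1
    linarith
  · have h1 : z = ((z.re : ℝ) : ℂ) := by apply Complex.ext <;> simp [h]
    have h2 : (1 : ℂ) - z = (((1 - z.re : ℝ)) : ℂ) := by rw [h1]; push_cast; simp
    rw [h2, D_ofReal, h1, D_ofReal, neg_zero]
  · exact key z h

theorem D_inv (z : ℂ) : D z⁻¹ = -D z := by
  have him : ∀ z : ℂ, z.im ≠ 0 → (z⁻¹).im ≠ 0 := by
    intro z hz
    rw [inv_im]
    have : normSq z ≠ 0 := by
      rw [Ne, normSq_eq_zero]; exact ne_zero_of_im hz
    exact div_ne_zero (neg_ne_zero.2 hz) this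
  have key : ∀ z : ℂ, 0 < z.im → D z⁻¹ = -D z := by
    intro z hz
    have hd : ∀ z : ℂ, 0 < z.im → HasFDerivAt (fun w => D w⁻¹ + D w) (ev 0) z := by
      intro z hz
      have hz0 : z ≠ 0 := ne_zero_of_im hz.ne'
      have hz1 : 1 - z ≠ 0 := ne_zero_of_im (by simpa using hz.ne')
      have h1 : HasDerivAt (fun w : ℂ => w⁻¹) (-(z ^ 2)⁻¹) z := hasDerivAt_inv hz0
      have h2 := (comp_hasFDerivAt (g := D) (D_hasFDerivAt_im (z := z⁻¹)
        (him z hz.ne')) h1).add (D_hasFDerivAt_im hz.ne')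
      refine h2.congr_fderiv ?_
      rw [← ev_add]
      congr 1
      have e1 : (1 : ℂ) - z⁻¹ = -((1 - z) / z) := by field_simp; ring
      have e2 : Real.log ‖(1 : ℂ) - z⁻¹‖ = Real.log ‖1 - z‖ - Real.log ‖z‖ := by
        rw [e1, norm_neg, norm_div, Real.log_div (norm_ne_zero_iff.2 hz1) (norm_ne_zero_iff.2 hz0)]
      have e3 : Real.log ‖z⁻¹‖ = -Real.log ‖z‖ := by rw [norm_inv, Real.log_inv]
      rw [dD, dD, e2, e3, e1]
      push_cast
      field_simp
      ring
    have h3 := const_upper hd hz (w := I) (by simp)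
    have h4 : (I : ℂ)⁻¹ = starRingEnd ℂ I := by rw [inv_I, conj_I]
    rw [h4, D_conj] at h3
    linarith
  rcases lt_trichotomy z.im 0 with h | h | h
  · have h1 := key (starRingEnd ℂ z) (by simpa using h)
    have h2 : (starRingEnd ℂ z)⁻¹ = starRingEnd ℂ (z⁻¹) := by simp
    rw [h2, D_conj, D_conj] at h1
    linarith
  · have h1 : z = ((z.re : ℝ) : ℂ) := by apply Complex.ext <;> simp [h]
    have h2 : z⁻¹ = ((z.re⁻¹ : ℝ) : ℂ) := by rw [h1]; push_cast; simp
    rw [h2, D_ofReal, h1, D_ofReal, neg_zero]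
  · exact key z h

/-- the differential of `D` at every `z ≠ 0, 1` -/
theorem D_hasFDerivAt {z : ℂ} (h0 : z ≠ 0) (h1 : z ≠ 1) : HasFDerivAt D (ev (dD z)) z := by
  by_cases hz : 1 - z ∈ slitPlane
  · exact D_hasFDerivAt_off hz h0
  · -- then `z` is real and `> 1`
    have h2 : z.im = 0 ∧ 1 ≤ z.re := by
      rw [mem_slitPlane_iff] at hz
      simp only [sub_re, one_re, sub_im, one_im, zero_sub, neg_ne_zero, ne_eq, not_or, not_lt,
        not_not] at hz
      exact ⟨hz.2, by linarith [hz.1]⟩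
    have h3 : 1 < z.re := by
      rcases eq_or_lt_of_le h2.2 with h | h
      · exact absurd (Complex.ext (by simp [← h]) (by simp [h2.1])) h1
      · exact h
    have hinv : (1 : ℂ) - z⁻¹ ∈ slitPlane := by
      rw [mem_slitPlane_iff]
      left
      have h4 : z⁻¹ = ((z.re⁻¹ : ℝ) : ℂ) := by
        have : z = ((z.re : ℝ) : ℂ) := by apply Complex.ext <;> simp [h2.1]
        rw [this]; push_cast; simp
      rw [h4]
      simp only [sub_re, one_re, ofReal_re, sub_pos]
      exact inv_lt_one_of_one_lt₀ h3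
    have hd : HasDerivAt (fun w : ℂ => w⁻¹) (-(z ^ 2)⁻¹) z := hasDerivAt_inv h0
    have h5 := (comp_hasFDerivAt (g := D) (D_hasFDerivAt_off hinv (inv_ne_zero h0)) hd).neg
    have h6 := h5.congr_of_eventuallyEq (f₁ := D) (by
      refine Eventually.of_forall fun w => ?_
      simp only [Pi.neg_apply]
      rw [D_inv, neg_neg])
    refine h6.congr_fderiv ?_
    rw [← ev_neg]
    congr 1
    have hz1 : 1 - z ≠ 0 := sub_ne_zero.2 (Ne.symm h1)
    have e1 : (1 : ℂ) - z⁻¹ = -((1 - z) / z) := by field_simp; ring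
    have e2 : Real.log ‖(1 : ℂ) - z⁻¹‖ = Real.log ‖1 - z‖ - Real.log ‖z‖ := by
      rw [e1, norm_neg, norm_div, Real.log_div (norm_ne_zero_iff.2 hz1) (norm_ne_zero_iff.2 h0)]
    have e3 : Real.log ‖z⁻¹‖ = -Real.log ‖z‖ := by rw [norm_inv, Real.log_inv]
    rw [dD, dD, e2, e3, e1]
    push_cast
    field_simp
    ring

theorem D_continuousAt_zero : ContinuousAt D 0 := by
  rw [ContinuousAt, D_zero]
  have h1 : Tendsto (fun z : ℂ => 2 * Real.pi * (‖z‖ * (1 + |Real.log ‖z‖|))) (𝓝 0) (𝓝 0) := by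
    have h2 : Continuous fun t : ℝ => t + |t * Real.log t| :=
      continuous_id.add Real.continuous_mul_log.abs
    have h3 : Tendsto (fun z : ℂ => 2 * Real.pi * (‖z‖ + |‖z‖ * Real.log ‖z‖|)) (𝓝 0) (𝓝 0) := by
      have h4 := ((h2.comp continuous_norm).const_mul (2 * Real.pi)).tendsto (0 : ℂ)
      simpa using h4
    refine h3.congr fun z => ?_
    rw [abs_mul, abs_of_nonneg (norm_nonneg z)]
    ring
  rw [tendsto_zero_iff_abs_tendsto_zero]
  exact squeeze_zero (fun z => abs_nonneg _) D_le h1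

theorem D_continuous : Continuous D := by
  rw [continuous_iff_continuousAt]
  intro z
  by_cases h0 : z = 0
  · rw [h0]; exact D_continuousAt_zero
  by_cases h1 : z = 1
  · rw [h1]
    have h2 : ContinuousAt (fun w : ℂ => -D (1 - w)) 1 := by
      refine ContinuousAt.neg ?_
      have h3 : ContinuousAt (fun w : ℂ => 1 - w) 1 := by fun_prop
      exact ContinuousAt.comp (g := D) (by rw [sub_self]; exact D_continuousAt_zero) h3
    refine h2.congr (Eventually.of_forall fun w => ?_)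
    change -D (1 - w) = D w
    rw [D_one_sub, neg_neg]
  · exact (D_hasFDerivAt h0 h1).continuousAt

theorem D_measurable : Measurable D := D_continuous.measurable

end Pool.Agent.Helper46.BW
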